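import Mathlib
import Pool.Agent.H27.PebbleDefs
import Pool.Agent.H27.PebbleLower

set_option autoImplicit false

/-!
The strong hub cover pebbling number of every cycle.
-/

open Finset SimpleGraph Pool.Agent.H27.Pebble

/-- For every `n ≥ 3`, the least number `t` of pebbles such that from every configuration of `t`
pebbles on the cycle `C_n` one can reach a configuration covering some strong hub set is
`2 ^ k + 2 ^ (k - 1) - 3` if `n = 2 k` and `2 ^ (k + 1) - 3` if `n = 2 k + 1`. -/
theorem Pool.Agent.Results.MP_7e79aa_co.HubCycle.result :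
    ∀ n : ℕ, 3 ≤ n →
      IsLeast {t : ℕ | HubCoverable (SimpleGraph.cycleGraph n) t}
        (if n % 2 = 0 then 2 ^ (n / 2) + 2 ^ (n / 2 - 1) - 3 else 2 ^ (n / 2 + 1) - 3) := by
  intro n hn
  obtain ⟨N, rfl⟩ : ∃ N, n = N + 3 := ⟨n - 3, by omega⟩
  constructor
  · intro c hc
    exact upper N c hc
  · intro t ht
    have h1 : ∑ v : Fin (N + 3), (Pi.single 0 t : Fin (N + 3) → ℕ) v = t := by
      rw [Finset.sum_pi_single', if_pos (mem_univ _)]
    obtain ⟨c', hcc, U, hU, hc'⟩ := ht _ h1
    have h2 : Phi N c' ≤ Phi N (Pi.single 0 t) := Phi_reach N hcc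
    rw [Phi_single] at h2
    have h3 : Pool.Agent.H27.Pebble.val (N + 3) ≤ Phi N c' := lower N hU hc'
    exact h3.trans h2
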